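import Pool.Agent.N724.TW.Stm
import Pool.Agent.Y395.SP.Asm

set_option autoImplicit false

/-!
# Splay trees and relabellings from a three-wise uniform family: assembly
-/

namespace Pool.Agent.N724.TW

open Pool.Agent.H581R2.Splay Pool.Agent.TH49.Spl Pool.Agent.Y395.SP

theorem notMem_tw {n : ℕ} (h : List (Fin n)) (x : Fin n) :
    x ∉ (h.takeWhile fun y => decide (y ≠ x)).toFinset := by
  rw [List.mem_toFinset]
  intro hx
  have := List.mem_takeWhile_imp hx
  simp at this

theorem wsF_lt {n : ℕ} (h : List (Fin n)) (x : Fin n) : wsF h x + 1 ≤ n := by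
  unfold wsF
  have h2 := Finset.card_lt_univ_of_notMem (notMem_tw h x)
  rw [Fintype.card_fin] at h2
  exact h2

theorem wsumF_le (hL : S_LOG) {n : ℕ} (X : List (Fin n)) : ∀ h : List (Fin n),
    wsumF h X ≤ NE h X + 2 * X.length := by
  induction X with
  | nil => intro h; simp [wsumF, NE]
  | cons x X ih =>
    intro h
    simp only [wsumF, NE, List.length_cons]
    have h1 := hL n (wsF h x) (wsF_lt h x)
    have h2 := ih (x :: h)
    push_cast
    linarith

theorem Zc_le {n : ℕ} (σ : Equiv.Perm (Fin n)) (X : List (Fin n)) : ∀ h : List (Fin n),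
    Zc σ h X ≤ NE h X := by
  classical
  induction X with
  | nil => intro h; simp [Zc, NE]
  | cons x X ih =>
    intro h
    simp only [Zc, NE]
    exact Nat.add_le_add (Finset.card_filter_le _ _) (ih _)

theorem sum_Zc (hP : S_PROB) (hF : S_FD) {n : ℕ} (S : Finset (Equiv.Perm (Fin n))) (hS : Uni3 S)
    (X : List (Fin n)) : ∀ h : List (Fin n), S.card * NE h X ≤ 64 * ∑ σ ∈ S, Zc σ h X := by
  classical
  induction X with
  | nil => intro h; simp [NE]
  | cons x X ih =>
    intro h
    simp only [NE, Zc, Finset.sum_add_distrib]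
    have h1 : S.card * (lev n (wsF h x)).card ≤ 64 * ∑ σ ∈ S, ((lev n (wsF h x)).filter fun e =>
        LHit (2 ^ e) σ x (fd (h.takeWhile fun y => decide (y ≠ x)) (n / (4 * 2 ^ e)))).card := by
      have h2 : ∑ σ ∈ S, ((lev n (wsF h x)).filter fun e =>
          LHit (2 ^ e) σ x (fd (h.takeWhile fun y => decide (y ≠ x)) (n / (4 * 2 ^ e)))).card =
          ∑ e ∈ lev n (wsF h x), (S.filter fun σ =>
          LHit (2 ^ e) σ x (fd (h.takeWhile fun y => decide (y ≠ x)) (n / (4 * 2 ^ e)))).card := by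
        simp only [Finset.card_filter]
        exact Finset.sum_comm
      rw [h2, Finset.mul_sum]
      have h3 : S.card * (lev n (wsF h x)).card = ∑ e ∈ lev n (wsF h x), S.card := by
        rw [Finset.sum_const, smul_eq_mul, mul_comm]
      rw [h3]
      refine Finset.sum_le_sum fun e he => ?_
      unfold lev at he
      rw [Finset.mem_filter] at he
      obtain ⟨-, he1, he2⟩ := he
      obtain ⟨f1, f2⟩ := hF n (h.takeWhile fun y => decide (y ≠ x)) (n / (4 * 2 ^ e)) he2
      have h4 := hP n (2 ^ e) S hS Nat.one_le_two_pow he1 x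
        (fd (h.takeWhile fun y => decide (y ≠ x)) (n / (4 * 2 ^ e)))
        (fun hx => notMem_tw h x (f2 hx)) f1
      convert h4
    have h5 := ih (x :: h)
    have h6 : ∑ σ ∈ S, ((lev n (wsF h x)).filter fun e =>
        LHit (2 ^ e) σ x (fd (h.takeWhile fun y => decide (y ≠ x)) (n / (4 * 2 ^ e)))).card =
        ∑ σ ∈ S, (Finset.filter (fun e =>
        LHit (2 ^ e) σ x (fd (h.takeWhile fun y => decide (y ≠ x)) (n / (4 * 2 ^ e))))
          (lev n (wsF h x))).card := rfl
    have h7 : S.card * ((lev n (wsF h x)).card + NE (x :: h) X) =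
        S.card * (lev n (wsF h x)).card + S.card * NE (x :: h) X := by ring
    rw [h7, mul_add]
    refine Nat.add_le_add ?_ h5
    convert h1

theorem bst_range {n : ℕ} {T : Tr} (hT : keys T = List.range n) : IsBST T := by
  unfold IsBST
  rw [hT]
  exact List.pairwise_lt_range

theorem rel_mem {n : ℕ} (σ : Equiv.Perm (Fin n)) (X : List (Fin n)) : ∀ x ∈ rel σ X, x < n := by
  intro x hx
  unfold rel at hx
  rw [List.mem_map] at hx
  obtain ⟨y, -, rfl⟩ := hx
  exact (σ y).2

/-- the interleave bound for the optimum -/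
theorem opt_alt (hV : S_VAL) (hC : S_CNT) {n : ℕ} {T : Tr} (hT : keys T = List.range n)
    (σ : Equiv.Perm (Fin n)) (X : List (Fin n)) :
    (Zc σ [] X : ℝ) ≤ 2 * optAny (List.range n) (rel σ X) := by
  have h1 : ((Zc σ [] X : ℝ)) / 2 ≤ (optAny (List.range n) (rel σ X) : ℝ) := by
    refine optAny_ge hT fun T' c hT' hE => ?_
    have h2 := hV T' (rel σ X) c n (bst_range hT') (fun x hx => by
      rw [hT', List.mem_range]; exact rel_mem σ X x hx) hE
    have h3 := (hC n σ X).trans h2
    have h4 : ((Zc σ [] X : ℕ) : ℝ) ≤ ((2 * c : ℕ) : ℝ) := by exact_mod_cast h3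
    push_cast at h4
    linarith
  linarith

theorem opt_len {n : ℕ} {T : Tr} (hT : keys T = List.range n)
    (σ : Equiv.Perm (Fin n)) (X : List (Fin n)) :
    (X.length : ℝ) ≤ optAny (List.range n) (rel σ X) := by
  refine optAny_ge hT fun T' c hT' hE => ?_
  have h2 := exec_length hE
  unfold rel at h2
  rw [List.length_map] at h2
  exact_mod_cast h2

/-- the working set bound -/
theorem cost_le (hL : S_LOG) (hI : S_INV) {n : ℕ} {T : Tr} (hT : keys T = List.range n)
    (X : List (Fin n)) (ρ : Equiv.Perm (Fin n)) :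
    (costSplay T (rel ρ X) : ℝ) ≤ 20 * X.length + 6 * NE [] X + 8 * (n * Real.logb 2 n) := by
  rcases X with _ | ⟨x0, X0⟩
  · have h0 : costSplay T (rel ρ []) = 0 := by simp [rel, costSplay]
    rw [h0]
    have : 0 ≤ Real.logb 2 n := by
      rcases Nat.eq_zero_or_pos n with rfl | hn
      · simp
      · exact Real.logb_nonneg (by norm_num) (by exact_mod_cast hn)
    simp only [List.length_nil, NE]
    push_cast
    positivity
  · have hn : T ≠ Tr.nil := by
      rintro rfl
      have h1 : (keys Tr.nil).length = (List.range n).length := by rw [hT]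
      simp only [keys, List.length_nil, List.length_range] at h1
      exact absurd x0.2 (by omega)
    have h1 := ws_holds T (rel ρ (x0 :: X0)) (bst_range hT) hn (fun x hx => by
      rw [hT, List.mem_range]; exact rel_mem ρ _ x hx)
    rw [hI n ρ (x0 :: X0), hT, List.length_range] at h1
    have h2 := wsumF_le hL (x0 :: X0) []
    have h3 : (rel ρ (x0 :: X0)).length = (x0 :: X0).length := by simp [rel]
    rw [h3] at h1
    linarith

theorem part1 (hV : S_VAL) (hC : S_CNT) (hF : S_FD) (hP : S_PROB) (hL : S_LOG) (hI : S_INV)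
    {n : ℕ} (S : Finset (Equiv.Perm (Fin n))) (hS : Uni3 S) (hne : S.Nonempty) {T : Tr}
    (hT : keys T = List.range n) (X : List (Fin n)) (ρ : Equiv.Perm (Fin n)) :
    (costSplay T (rel ρ X) : ℝ) ≤
      788 * ((∑ σ ∈ S, (optAny (List.range n) (rel σ X) : ℝ)) / S.card) +
        8 * (n * Real.logb 2 n) := by
  have hc : (0 : ℝ) < S.card := by exact_mod_cast hne.card_pos
  have h1 := cost_le hL hI hT X ρ
  have h2 : ((S.card * NE [] X : ℕ) : ℝ) ≤ ((64 * ∑ σ ∈ S, Zc σ [] X : ℕ) : ℝ) := by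
    exact_mod_cast sum_Zc hP hF S hS X []
  push_cast at h2
  have h3 : ∑ σ ∈ S, (Zc σ [] X : ℝ) ≤ ∑ σ ∈ S, 2 * (optAny (List.range n) (rel σ X) : ℝ) :=
    Finset.sum_le_sum fun σ _ => opt_alt hV hC hT σ X
  rw [← Finset.mul_sum] at h3
  have h4 : ∑ σ ∈ S, (X.length : ℝ) ≤ ∑ σ ∈ S, (optAny (List.range n) (rel σ X) : ℝ) :=
    Finset.sum_le_sum fun σ _ => opt_len hT σ X
  rw [Finset.sum_const, nsmul_eq_mul] at h4
  have h5 : (NE [] X : ℝ) ≤ 128 * ((∑ σ ∈ S, (optAny (List.range n) (rel σ X) : ℝ)) / S.card) := by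
    rw [← mul_div_assoc, le_div_iff₀ hc]
    nlinarith
  have h6 : (X.length : ℝ) ≤ ((∑ σ ∈ S, (optAny (List.range n) (rel σ X) : ℝ)) / S.card) := by
    rw [le_div_iff₀ hc]
    nlinarith
  linarith

open Classical in
theorem part2 (hV : S_VAL) (hC : S_CNT) (hF : S_FD) (hP : S_PROB) (hL : S_LOG) (hI : S_INV)
    {n : ℕ} (S : Finset (Equiv.Perm (Fin n))) (hS : Uni3 S) {T : Tr}
    (hT : keys T = List.range n) (X : List (Fin n)) :
    S.card ≤ 128 * (S.filter fun σ => ∀ ρ : Equiv.Perm (Fin n), (costSplay T (rel ρ X) : ℝ) ≤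
      1556 * optAny (List.range n) (rel σ X) + 8 * (n * Real.logb 2 n)).card := by
  set G := S.filter fun σ => NE [] X ≤ 128 * Zc σ [] X with hG
  have hsub : G ⊆ S.filter fun σ => ∀ ρ : Equiv.Perm (Fin n), (costSplay T (rel ρ X) : ℝ) ≤
      1556 * optAny (List.range n) (rel σ X) + 8 * (n * Real.logb 2 n) := by
    intro σ hσ
    rw [hG, Finset.mem_filter] at hσ
    rw [Finset.mem_filter]
    refine ⟨hσ.1, fun ρ => ?_⟩
    have h1 := cost_le hL hI hT X ρ
    have h2 : (NE [] X : ℝ) ≤ 128 * Zc σ [] X := by exact_mod_cast hσ.2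
    have h3 := opt_alt hV hC hT σ X
    have h4 := opt_len hT σ X
    linarith
  refine le_trans ?_ (Nat.mul_le_mul_left 128 (Finset.card_le_card hsub))
  rcases Nat.eq_zero_or_pos (NE [] X) with h0 | h0
  · have : G = S := by
      rw [hG, Finset.filter_true_of_mem]
      intro σ _
      rw [h0]; exact Nat.zero_le _
    rw [this]; omega
  · have h1 := sum_Zc hP hF S hS X []
    have h2 : ∑ σ ∈ S, Zc σ [] X ≤ G.card * NE [] X + ∑ σ ∈ S \ G, Zc σ [] X := by
      have hGS : G ⊆ S := Finset.filter_subset _ _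
      rw [← Finset.sum_sdiff hGS, add_comm]
      refine Nat.add_le_add_right ?_ _
      calc ∑ σ ∈ G, Zc σ [] X ≤ ∑ σ ∈ G, NE [] X := Finset.sum_le_sum fun σ _ => Zc_le σ X []
        _ = G.card * NE [] X := by rw [Finset.sum_const, smul_eq_mul]
    have h3 : 128 * ∑ σ ∈ S \ G, Zc σ [] X ≤ S.card * NE [] X := by
      rw [Finset.mul_sum]
      calc ∑ σ ∈ S \ G, 128 * Zc σ [] X ≤ ∑ σ ∈ S \ G, NE [] X := by
            refine Finset.sum_le_sum fun σ hσ => ?_
            rw [Finset.mem_sdiff] at hσ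
            by_contra hcon
            exact hσ.2 (by rw [hG, Finset.mem_filter]; exact ⟨hσ.1, by omega⟩)
        _ = (S \ G).card * NE [] X := by rw [Finset.sum_const, smul_eq_mul]
        _ ≤ S.card * NE [] X := Nat.mul_le_mul_right _ (Finset.card_le_card Finset.sdiff_subset)
    have h4 : 2 * (S.card * NE [] X) ≤ 128 * (G.card * NE [] X) + S.card * NE [] X := by
      omega
    have h5 : S.card * NE [] X ≤ (128 * G.card) * NE [] X := by
      rw [mul_assoc]; omega
    exact Nat.le_of_mul_le_mul_right h5 h0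

/-- the uniform families from the Moebius maps -/
theorem uni_mob (hM : S_MOB) (p k : ℕ) [Fact p.Prime] (hk : k ≠ 0) :
    ∃ S : Finset (Equiv.Perm (Fin (p ^ k + 1))), Uni3 S ∧
      S.card = (p ^ k + 1) * p ^ k * (p ^ k - 1) := by
  haveI : Fintype (GaloisField p k) := Fintype.ofFinite _
  have hcard : Fintype.card (GaloisField p k) = p ^ k := by
    rw [Fintype.card_eq_nat_card]; exact GaloisField.card p k hk
  have h1 := hM (GaloisField p k)
  rw [hcard] at h1
  obtain ⟨S, h2, h3⟩ := h1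
  refine ⟨S, ?_, h2⟩
  intro a b c a' b' c' n1 n2 n3 n4 n5 n6
  rw [h3 a b c a' b' c' n1 n2 n3 n4 n5 n6, h2, one_mul]
  have h5 : p ^ k + 1 - 1 = p ^ k := by omega
  have h6 : p ^ k + 1 - 2 = p ^ k - 1 := by omega
  rw [h5, h6]

end Pool.Agent.N724.TW
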