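import Pool.Agent.TH49.Spl.Low
import Pool.Agent.Y395.SP.Stm

set_option autoImplicit false

/-!
# Splay trees and relabellings from a three-wise uniform family: definitions and statements

Project TW of helper724 (problem `MP_c42954_lc`).
-/

namespace Pool.Agent.N724.TW

open Pool.Agent.H581R2.Splay Pool.Agent.TH49.Spl Pool.Agent.Y395.SP

/-- `S` is a three-wise uniform family of permutations: for distinct `a`, `b`, `c` and distinct `a'`,
`b'`, `c'` the number of the `σ ∈ S` with `σ a = a'`, `σ b = b'`, `σ c = c'` is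
`|S| / (n (n - 1) (n - 2))`. -/
def Uni3 {n : ℕ} (S : Finset (Equiv.Perm (Fin n))) : Prop :=
  ∀ a b c a' b' c' : Fin n, a ≠ b → a ≠ c → b ≠ c → a' ≠ b' → a' ≠ c' → b' ≠ c' →
    (S.filter fun σ => σ a = a' ∧ σ b = b' ∧ σ c = c').card * (n * (n - 1) * (n - 2)) = S.card

/-- the relabelled requests -/
def rel {n : ℕ} (σ : Equiv.Perm (Fin n)) (X : List (Fin n)) : List ℕ := X.map fun x => (σ x : ℕ)

/-- number of distinct keys requested since the last request of `x`; `h` is the history, the most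
recent request first -/
def wsF {n : ℕ} (h : List (Fin n)) (x : Fin n) : ℕ :=
  ((h.takeWhile fun y => decide (y ≠ x)).toFinset).card

noncomputable def wsumF {n : ℕ} : List (Fin n) → List (Fin n) → ℝ
  | _, [] => 0
  | h, x :: X => Real.logb 2 (wsF h x + 1) + wsumF (x :: h) X

/-- the keys in the longest initial segment of `u` with at most `s` distinct keys -/
def fd {n : ℕ} (u : List (Fin n)) (s : ℕ) : Finset (Fin n) :=
  (u.take (Nat.findGreatest (fun k => (u.take k).toFinset.card ≤ s) u.length)).toFinset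

/-- `σ x` is in the right half `[m, r)`, exactly one `y ∈ Q` has `σ y ∈ [l, r)`, and this `σ y` is in
the left half `[l, m)` -/
def Hit {n : ℕ} (l m r : ℕ) (σ : Equiv.Perm (Fin n)) (x : Fin n) (Q : Finset (Fin n)) : Prop :=
  (m ≤ (σ x : ℕ) ∧ (σ x : ℕ) < r) ∧ ∃ y ∈ Q, (l ≤ (σ y : ℕ) ∧ (σ y : ℕ) < m) ∧
    ∀ z ∈ Q, l ≤ (σ z : ℕ) → (σ z : ℕ) < r → z = y

/-- the level with intervals of length `2 k` is hit -/
def LHit {n : ℕ} (k : ℕ) (σ : Equiv.Perm (Fin n)) (x : Fin n) (Q : Finset (Fin n)) : Prop :=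
  ∃ i : ℕ, (i + 1) * (2 * k) ≤ n ∧ Hit (i * (2 * k)) (i * (2 * k) + k) ((i + 1) * (2 * k)) σ x Q

/-- the levels used for a request with working set number `t` -/
def lev (n t : ℕ) : Finset ℕ :=
  (Finset.range n).filter fun e => 4 * 2 ^ e ≤ n ∧ n / (4 * 2 ^ e) ≤ t

/-- total number of the levels used for the requests `X` after the history `h` -/
def NE {n : ℕ} : List (Fin n) → List (Fin n) → ℕ
  | _, [] => 0
  | h, x :: X => (lev n (wsF h x)).card + NE (x :: h) X

open Classical in
/-- number of the levels which are hit -/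
noncomputable def Zc {n : ℕ} (σ : Equiv.Perm (Fin n)) : List (Fin n) → List (Fin n) → ℕ
  | _, [] => 0
  | h, x :: X => ((lev n (wsF h x)).filter fun e =>
      LHit (2 ^ e) σ x (fd (h.takeWhile fun y => decide (y ≠ x)) (n / (4 * 2 ^ e)))).card +
        Zc σ (x :: h) X

/-- the number of changes from left to right in all dyadic intervals of length `2, 4, ..., 2 ^ D` -/
def alt (D : ℕ) (Y : List ℕ) : ℕ :=
  ∑ e ∈ Finset.range D, ∑ i ∈ Finset.range (2 ^ (D - 1 - e)),
    cnt (i * (2 * 2 ^ e)) (i * (2 * 2 ^ e) + 2 ^ e) ((i + 1) * (2 * 2 ^ e)) false Y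

/-- VAL: the interleave bound for the dyadic scheme -/
def S_VAL : Prop := ∀ (T : Tr) (Y : List ℕ) (c D : ℕ), IsBST T → (∀ x ∈ Y, x ∈ keys T) →
  Exec T Y c → alt D Y ≤ 2 * c

/-- CNT: hits are changes -/
def S_CNT : Prop := ∀ (n : ℕ) (σ : Equiv.Perm (Fin n)) (X : List (Fin n)),
  Zc σ [] X ≤ alt n (rel σ X)

/-- FD: the first `s` distinct keys -/
def S_FD : Prop := ∀ (n : ℕ) (u : List (Fin n)) (s : ℕ), s ≤ u.toFinset.card →
  (fd u s).card = s ∧ fd u s ⊆ u.toFinset

/-- PROB: a level is hit with probability at least `1 / 64` -/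
def S_PROB : Prop := ∀ (n k : ℕ) (S : Finset (Equiv.Perm (Fin n))), Uni3 S → 1 ≤ k → 4 * k ≤ n →
  ∀ (x : Fin n) (Q : Finset (Fin n)), x ∉ Q → Q.card = n / (4 * k) →
    S.card ≤ 64 * (open Classical in S.filter fun σ => LHit k σ x Q).card

/-- LOG: the number of levels -/
def S_LOG : Prop := ∀ n t : ℕ, t + 1 ≤ n → Real.logb 2 (t + 1) ≤ (lev n t).card + 2

/-- INV: the working set bound does not depend on the names of the keys -/
def S_INV : Prop := ∀ (n : ℕ) (σ : Equiv.Perm (Fin n)) (X : List (Fin n)),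
  wsum [] (rel σ X) = wsumF [] X

/-- MOB: the Moebius maps of the projective line over a finite field form a sharply three-transitive
family. -/
def S_MOB : Prop := ∀ (F : Type) [Field F] [Fintype F],
  ∃ S : Finset (Equiv.Perm (Fin (Fintype.card F + 1))),
    S.card = (Fintype.card F + 1) * Fintype.card F * (Fintype.card F - 1) ∧
    ∀ a b c a' b' c' : Fin (Fintype.card F + 1), a ≠ b → a ≠ c → b ≠ c → a' ≠ b' → a' ≠ c' →
      b' ≠ c' → (S.filter fun σ => σ a = a' ∧ σ b = b' ∧ σ c = c').card = 1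

end Pool.Agent.N724.TW
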