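import Pool.Agent.N724.TW.Stm

set_option autoImplicit false

/-!
# Hits are changes
-/

namespace Pool.Agent.N724.TW

open Pool.Agent.H581R2.Splay Pool.Agent.TH49.Spl Pool.Agent.Y395.SP

namespace CNT

variable {n : ℕ} (σ : Equiv.Perm (Fin n))

/-- The state of the node `(l, m, r)` after the history `h` (the most recent request first). -/
def st (l m r : ℕ) : List (Fin n) → Bool
  | [] => false
  | x :: h => if l ≤ (σ x : ℕ) ∧ (σ x : ℕ) < m then true
      else if m ≤ (σ x : ℕ) ∧ (σ x : ℕ) < r then false else st l m r h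

/-- The request `x` is a change. -/
def ind (l m r : ℕ) (h : List (Fin n)) (x : Fin n) : ℕ :=
  if ¬ (l ≤ (σ x : ℕ) ∧ (σ x : ℕ) < m) ∧ (m ≤ (σ x : ℕ) ∧ (σ x : ℕ) < r) ∧
    st σ l m r h = true then 1 else 0

lemma cnt_step (l m r : ℕ) (h : List (Fin n)) (x : Fin n) (Y : List ℕ) :
    cnt l m r (st σ l m r h) ((σ x : ℕ) :: Y) =
      ind σ l m r h x + cnt l m r (st σ l m r (x :: h)) Y := by
  unfold ind
  by_cases h1 : l ≤ (σ x : ℕ) ∧ (σ x : ℕ) < m
  · simp [cnt, st, h1]
  · by_cases h2 : m ≤ (σ x : ℕ) ∧ (σ x : ℕ) < r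
    · simp [cnt, st, h1, h2]
    · simp [cnt, st, h1, h2]

lemma st_append {l m r : ℕ} (hlm : l ≤ m) (hmr : m ≤ r) {y : Fin n}
    (hy : l ≤ (σ y : ℕ) ∧ (σ y : ℕ) < m) (rest : List (Fin n)) :
    ∀ p : List (Fin n), y ∈ p → (∀ z ∈ p, l ≤ (σ z : ℕ) → (σ z : ℕ) < r → z = y) →
      st σ l m r (p ++ rest) = true := by
  intro p
  induction p with
  | nil => intro h; simp at h
  | cons z p ih =>
    intro hyp hz
    rw [List.cons_append]
    by_cases hzy : z = y
    · subst hzy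
      simp [st, hy]
    · have h1 : ¬ (l ≤ (σ z : ℕ) ∧ (σ z : ℕ) < m) := fun h =>
        hzy (hz z (by simp) h.1 (by omega))
      have h2 : ¬ (m ≤ (σ z : ℕ) ∧ (σ z : ℕ) < r) := fun h =>
        hzy (hz z (by simp) (by omega) h.2)
      rw [st, if_neg h1, if_neg h2]
      apply ih
      · rcases List.mem_cons.1 hyp with h3 | h3
        · exact absurd h3.symm hzy
        · exact h3
      · exact fun w hw => hz w (List.mem_cons_of_mem _ hw)

lemma st_of_hit {l m r : ℕ} {x : Fin n} {h : List (Fin n)} {s : ℕ}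
    (hit : Hit l m r σ x (fd (h.takeWhile fun y => decide (y ≠ x)) s)) :
    st σ l m r h = true := by
  obtain ⟨⟨h1, h2⟩, y, hy, h3, h4⟩ := hit
  have hpre : ∀ k : ℕ, ((h.takeWhile fun y => decide (y ≠ x)).take k) <+: h := fun k =>
    (List.take_prefix _ _).trans (List.takeWhile_prefix _)
  rw [fd] at hy h4
  obtain ⟨rest, hrest⟩ := hpre (Nat.findGreatest (fun k =>
    ((h.takeWhile fun y => decide (y ≠ x)).take k).toFinset.card ≤ s)
      (h.takeWhile fun y => decide (y ≠ x)).length)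
  rw [← hrest]
  refine st_append σ (by omega) (by omega) h3 rest _ (List.mem_toFinset.1 hy) ?_
  intro z hz
  exact h4 z (List.mem_toFinset.2 hz)

lemma ind_of_hit {l m r : ℕ} {x : Fin n} {h : List (Fin n)} {s : ℕ}
    (hit : Hit l m r σ x (fd (h.takeWhile fun y => decide (y ≠ x)) s)) :
    ind σ l m r h x = 1 := by
  rw [ind, if_pos]
  refine ⟨?_, hit.1, st_of_hit σ hit⟩
  rintro ⟨_, h2⟩
  have := hit.1.1
  omega

/-- the sum over all nodes -/
def tot (f : ℕ → ℕ → ℕ → ℕ) (n : ℕ) : ℕ :=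
  ∑ e ∈ Finset.range n, ∑ i ∈ Finset.range (2 ^ (n - 1 - e)),
    f (i * (2 * 2 ^ e)) (i * (2 * 2 ^ e) + 2 ^ e) ((i + 1) * (2 * 2 ^ e))

lemma tot_add (f g : ℕ → ℕ → ℕ → ℕ) (n : ℕ) :
    tot (fun l m r => f l m r + g l m r) n = tot f n + tot g n := by
  simp only [tot, Finset.sum_add_distrib]

lemma bound {e i : ℕ} (he : e < n) (hi : (i + 1) * (2 * 2 ^ e) ≤ n) : i < 2 ^ (n - 1 - e) := by
  have h1 : n < 2 ^ n := Nat.lt_two_pow_self
  have h2 : 2 ^ n = 2 ^ (n - 1 - e) * (2 * 2 ^ e) := by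
    rw [← pow_succ', ← pow_add]
    congr 1
    omega
  have h3 : (i + 1) * (2 * 2 ^ e) < 2 ^ (n - 1 - e) * (2 * 2 ^ e) := by omega
  have h4 := Nat.lt_of_mul_lt_mul_right h3
  omega

open Classical in
lemma card_le (h : List (Fin n)) (x : Fin n) (s : ℕ → ℕ) (t : ℕ) :
    ((lev n t).filter fun e =>
      LHit (2 ^ e) σ x (fd (h.takeWhile fun y => decide (y ≠ x)) (s e))).card ≤
      tot (fun l m r => ind σ l m r h x) n := by
  rw [Finset.card_eq_sum_ones, tot]
  refine (Finset.sum_le_sum fun e he => ?_).trans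
    (Finset.sum_le_sum_of_subset (f := fun e => ∑ i ∈ Finset.range (2 ^ (n - 1 - e)),
      ind σ (i * (2 * 2 ^ e)) (i * (2 * 2 ^ e) + 2 ^ e) ((i + 1) * (2 * 2 ^ e)) h x) ?_)
  · rw [Finset.mem_filter] at he
    obtain ⟨i, hi, hit⟩ := he.2
    have hen : e < n := Finset.mem_range.1 (Finset.mem_filter.1 he.1).1
    refine (ind_of_hit σ hit).symm.le.trans ?_
    exact Finset.single_le_sum (f := fun i =>
      ind σ (i * (2 * 2 ^ e)) (i * (2 * 2 ^ e) + 2 ^ e) ((i + 1) * (2 * 2 ^ e)) h x)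
      (fun _ _ => Nat.zero_le _) (Finset.mem_range.2 (bound hen hi))
  · exact (Finset.filter_subset _ _).trans (Finset.filter_subset _ _)

lemma main (X : List (Fin n)) : ∀ h : List (Fin n),
    Zc σ h X ≤ tot (fun l m r => cnt l m r (st σ l m r h) (rel σ X)) n := by
  induction X with
  | nil => intro h; simp [Zc]
  | cons x X ih =>
    intro h
    have h1 : (fun l m r => cnt l m r (st σ l m r h) (rel σ (x :: X))) = fun l m r =>
        ind σ l m r h x + cnt l m r (st σ l m r (x :: h)) (rel σ X) := by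
      funext l m r
      exact cnt_step σ l m r h x (rel σ X)
    rw [h1, tot_add, Zc]
    exact Nat.add_le_add (card_le σ h x _ _) (ih (x :: h))

end CNT

/-- **Hits are changes.** -/
theorem holds_CNT : S_CNT := by
  intro n σ X
  exact CNT.main σ X []

end Pool.Agent.N724.TW
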