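import Pool.Agent.N724.TW.Stm

/-!
# TW/FD (helper456): the first `s` distinct keys
-/

set_option autoImplicit false

namespace Pool.Agent.N724.TW

theorem holds_FD : S_FD := by
  intro n u s hs
  unfold fd
  set k₀ : ℕ := Nat.findGreatest (fun k => (u.take k).toFinset.card ≤ s) u.length with hk₀
  have h1 : (u.take k₀).toFinset.card ≤ s :=
    Nat.findGreatest_spec (P := fun k => (u.take k).toFinset.card ≤ s) (Nat.zero_le u.length)
      (by simp)
  have h2 : k₀ ≤ u.length := Nat.findGreatest_le _
  constructor
  · refine le_antisymm h1 ?_
    rcases h2.eq_or_lt with h3 | h3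
    · rw [h3, List.take_length]
      exact hs
    · have h4 : ¬ ((u.take (k₀ + 1)).toFinset.card ≤ s) :=
        Nat.findGreatest_is_greatest (P := fun k => (u.take k).toFinset.card ≤ s)
          (Nat.lt_succ_self k₀) h3
      have h5 : (u.take (k₀ + 1)).toFinset ⊆ insert u[k₀] (u.take k₀).toFinset := by
        intro x hx
        rw [List.mem_toFinset, List.take_succ_eq_append_getElem h3, List.mem_append,
          List.mem_singleton] at hx
        rw [Finset.mem_insert, List.mem_toFinset]
        exact hx.symm
      have h6 := Finset.card_le_card h5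
      have h7 := Finset.card_insert_le u[k₀] (u.take k₀).toFinset
      omega
  · intro x hx
    rw [List.mem_toFinset] at hx ⊢
    exact List.mem_of_mem_take hx

end Pool.Agent.N724.TW
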