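import Pool.Agent.N724.TW.Stm

set_option autoImplicit false

/-!
# Project TW, part INV: the working set bound does not depend on the names of the keys
-/

namespace Pool.Agent.N724.TW

open Pool.Agent.H581R2.Splay Pool.Agent.TH49.Spl Pool.Agent.Y395.SP

theorem inv_takeWhile {n : ℕ} (σ : Equiv.Perm (Fin n)) (x : Fin n) (h : List (Fin n)) :
    (rel σ h).takeWhile (fun y => decide (y ≠ ((σ x : Fin n) : ℕ))) =
      rel σ (h.takeWhile fun y => decide (y ≠ x)) := by
  induction h with
  | nil => rfl
  | cons a h ih =>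
    have hrel : rel σ (a :: h) = ((σ a : Fin n) : ℕ) :: rel σ h := rfl
    rw [hrel, List.takeWhile_cons, List.takeWhile_cons]
    by_cases hax : a = x
    · subst hax
      simp [rel]
    · have h1 : ((σ a : Fin n) : ℕ) ≠ ((σ x : Fin n) : ℕ) := by
        intro h2
        exact hax (σ.injective (Fin.ext h2))
      have h3 : rel σ (a :: List.takeWhile (fun y => decide (y ≠ x)) h) =
        ((σ a : Fin n) : ℕ) :: rel σ (List.takeWhile (fun y => decide (y ≠ x)) h) := rfl
      simp only [h1, hax, ne_eq, not_false_eq_true, decide_true, if_true]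
      simp only [ne_eq] at ih h3
      rw [h3, ih]

theorem inv_ws {n : ℕ} (σ : Equiv.Perm (Fin n)) (x : Fin n) (h : List (Fin n)) :
    ws (rel σ h) ((σ x : Fin n) : ℕ) = wsF h x := by
  unfold ws wsF
  rw [inv_takeWhile]
  have h1 : (rel σ (h.takeWhile fun y => decide (y ≠ x))).toFinset =
      (h.takeWhile fun y => decide (y ≠ x)).toFinset.image (fun y => ((σ y : Fin n) : ℕ)) := by
    ext k
    simp [rel]
  rw [h1, Finset.card_image_of_injective]
  intro a b hab
  exact σ.injective (Fin.ext hab)

theorem inv_wsum {n : ℕ} (σ : Equiv.Perm (Fin n)) (X : List (Fin n)) :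
    ∀ h : List (Fin n), wsum (rel σ h) (rel σ X) = wsumF h X := by
  induction X with
  | nil => intro h; simp [rel, wsum, wsumF]
  | cons x X ih =>
    intro h
    have h1 : rel σ (x :: X) = ((σ x : Fin n) : ℕ) :: rel σ X := rfl
    have h2 : ((σ x : Fin n) : ℕ) :: rel σ h = rel σ (x :: h) := rfl
    rw [h1, wsum, wsumF, inv_ws, h2, ih]

theorem holds_INV : S_INV := by
  intro n σ X
  exact inv_wsum σ X []

end Pool.Agent.N724.TW
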