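import Pool.Agent.N724.TW.Stm

/-!
# Project TW (helper724), part LOG (helper897): the number of levels
-/

set_option autoImplicit false

namespace Pool.Agent.N724.TW

theorem holds_LOG : S_LOG := by
  intro n t htn
  obtain ⟨q, hq⟩ : ∃ q, q = Nat.log 2 (t + 1) := ⟨_, rfl⟩
  obtain ⟨L, hL⟩ : ∃ L, L = Nat.log 2 n := ⟨_, rfl⟩
  have hq1 : 2 ^ q ≤ t + 1 := by
    rw [hq]
    exact Nat.pow_log_le_self 2 (by omega)
  have hq2 : t + 1 < 2 ^ (q + 1) := by
    rw [hq]
    exact Nat.lt_pow_succ_log_self (by norm_num) _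
  have hL1 : 2 ^ L ≤ n := by
    rw [hL]
    exact Nat.pow_log_le_self 2 (by omega)
  have hL2 : n < 2 ^ (L + 1) := by
    rw [hL]
    exact Nat.lt_pow_succ_log_self (by norm_num) _
  have hqL : q ≤ L := by
    rw [hq, hL]
    exact Nat.log_mono_right htn
  have hlog : Real.logb 2 (t + 1) ≤ (q : ℝ) + 1 := by
    rw [Real.logb_le_iff_le_rpow (by norm_num) (by positivity)]
    have h1 : ((t + 1 : ℕ) : ℝ) ≤ ((2 ^ (q + 1) : ℕ) : ℝ) := by exact_mod_cast hq2.le
    have h2 : (2 : ℝ) ^ ((q : ℝ) + 1) = ((2 ^ (q + 1) : ℕ) : ℝ) := by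
      rw [← Nat.cast_succ, Real.rpow_natCast]
      push_cast
      rfl
    rw [h2]
    push_cast at h1 ⊢
    exact h1
  have hcard : q ≤ (lev n t).card + 1 := by
    rcases Nat.lt_or_ge q 2 with h | h
    · omega
    have hsub : Finset.Ico (L - q - 1) (L - 1) ⊆ lev n t := by
      intro e he
      rw [Finset.mem_Ico] at he
      have hLn : L < n := by
        have : L < 2 ^ L := Nat.lt_two_pow_self
        omega
      have h4 : 4 * 2 ^ e = 2 ^ (e + 2) := by ring
      unfold lev
      rw [Finset.mem_filter, Finset.mem_range, h4]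
      refine ⟨by omega, ?_, ?_⟩
      · exact le_trans (Nat.pow_le_pow_right (by norm_num) (by omega)) hL1
      · have h5 : n < 2 ^ (e + 2) * (t + 1) := by
          calc n < 2 ^ (L + 1) := hL2
            _ ≤ 2 ^ (e + 2 + q) := Nat.pow_le_pow_right (by norm_num) (by omega)
            _ = 2 ^ (e + 2) * 2 ^ q := by rw [pow_add]
            _ ≤ 2 ^ (e + 2) * (t + 1) := Nat.mul_le_mul_left _ hq1
        have h6 : n / 2 ^ (e + 2) < t + 1 := by
          rw [Nat.div_lt_iff_lt_mul (by positivity)]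
          rw [mul_comm]
          exact h5
        omega
    have h7 := Finset.card_le_card hsub
    rw [Nat.card_Ico] at h7
    omega
  have hc : (q : ℝ) ≤ (lev n t).card + 1 := by exact_mod_cast hcard
  linarith

end Pool.Agent.N724.TW
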