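import Pool.Agent.N724.TW.Stm

set_option autoImplicit false

/-!
# TW/MOB: the Moebius maps of the projective line over a finite field
-/

namespace Pool.Agent.N724.TW

namespace MOB

open Finset OnePoint Matrix

section
variable {F : Type} [Field F] [DecidableEq F]

/-- the matrix with rows `(a, b)`, `(c, d)` -/
noncomputable def mg (a b c d : F) (h : a * d - b * c ≠ 0) : GL (Fin 2) F :=
  Matrix.GeneralLinearGroup.mkOfDetNeZero !![a, b; c, d] (by rw [det_fin_two_of]; exact h)

theorem mg_infty (a b c d : F) (h : a * d - b * c ≠ 0) :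
    mg a b c d h • (∞ : OnePoint F) = if c = 0 then ∞ else ((a / c : F) : OnePoint F) := by
  rw [smul_infty_eq_ite]
  rfl

theorem mg_some (a b c d : F) (h : a * d - b * c ≠ 0) (k : F) :
    mg a b c d h • (k : OnePoint F) =
      if c * k + d = 0 then ∞ else (((a * k + b) / (c * k + d) : F) : OnePoint F) := by
  rw [smul_some_eq_ite]
  rfl

theorem step1 (a : OnePoint F) : ∃ g : GL (Fin 2) F, g • a = ∞ := by
  cases a with
  | infty => exact ⟨1, one_smul _ _⟩
  | coe x =>
    refine ⟨mg 0 1 1 (-x) (by simp), ?_⟩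
    rw [mg_some, if_pos (by ring)]

theorem step2 (b : OnePoint F) (hb : b ≠ ∞) :
    ∃ g : GL (Fin 2) F, g • (∞ : OnePoint F) = ∞ ∧ g • b = ((0 : F) : OnePoint F) := by
  cases b with
  | infty => exact absurd rfl hb
  | coe x =>
    refine ⟨mg 1 (-x) 0 1 (by simp), ?_, ?_⟩
    · rw [mg_infty, if_pos rfl]
    · rw [mg_some, if_neg (by simp)]
      congr 1
      simp

theorem step3 (c : OnePoint F) (hc : c ≠ ∞) (hc0 : c ≠ ((0 : F) : OnePoint F)) :
    ∃ g : GL (Fin 2) F, g • (∞ : OnePoint F) = ∞ ∧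
      g • ((0 : F) : OnePoint F) = ((0 : F) : OnePoint F) ∧ g • c = ((1 : F) : OnePoint F) := by
  cases c with
  | infty => exact absurd rfl hc
  | coe x =>
    have hx : x ≠ 0 := fun h => hc0 (by rw [h])
    refine ⟨mg x⁻¹ 0 0 1 (by simpa using hx), ?_, ?_, ?_⟩
    · rw [mg_infty, if_pos rfl]
    · rw [mg_some, if_neg (by simp)]
      congr 1
      simp
    · rw [mg_some, if_neg (by simp)]
      congr 1
      simp [hx]

theorem norm3 (a b c : OnePoint F) (hab : a ≠ b) (hac : a ≠ c) (hbc : b ≠ c) :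
    ∃ g : GL (Fin 2) F, g • a = ∞ ∧ g • b = ((0 : F) : OnePoint F) ∧
      g • c = ((1 : F) : OnePoint F) := by
  obtain ⟨g1, h1⟩ := step1 a
  have hb : g1 • b ≠ ∞ := by
    rw [← h1]
    intro h
    exact hab (MulAction.injective g1 h).symm
  obtain ⟨g2, h2, h3⟩ := step2 (g1 • b) hb
  have hc1 : g2 • (g1 • c) ≠ ∞ := by
    intro h
    have h4 : g2 • (g1 • c) = g2 • (g1 • a) := by rw [h, h1, h2]
    exact hac (MulAction.injective g1 (MulAction.injective g2 h4)).symm
  have hc2 : g2 • (g1 • c) ≠ ((0 : F) : OnePoint F) := by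
    intro h
    have h4 : g2 • (g1 • c) = g2 • (g1 • b) := by rw [h, h3]
    exact hbc (MulAction.injective g1 (MulAction.injective g2 h4)).symm
  obtain ⟨g3, h5, h6, h7⟩ := step3 (g2 • (g1 • c)) hc1 hc2
  refine ⟨g3 * (g2 * g1), ?_, ?_, ?_⟩
  · rw [mul_smul, mul_smul, h1, h2, h5]
  · rw [mul_smul, mul_smul, h3, h6]
  · rw [mul_smul, mul_smul, h7]

theorem triv (g : GL (Fin 2) F) (h1 : g • (∞ : OnePoint F) = ∞)
    (h2 : g • ((0 : F) : OnePoint F) = ((0 : F) : OnePoint F))
    (h3 : g • ((1 : F) : OnePoint F) = ((1 : F) : OnePoint F)) (x : OnePoint F) : g • x = x := by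
  rw [smul_infty_eq_self_iff] at h1
  rw [smul_some_eq_ite] at h2 h3
  rw [h1] at h2 h3
  simp only [mul_zero, zero_add, mul_one] at h2 h3
  by_cases hd : g 1 1 = 0
  · rw [if_pos hd] at h2
    exact absurd h2 (infty_ne_coe _)
  · rw [if_neg hd, OnePoint.coe_eq_coe, div_eq_zero_iff, or_iff_left hd] at h2
    rw [if_neg hd, OnePoint.coe_eq_coe, h2, add_zero, div_eq_one_iff_eq hd] at h3
    cases x with
    | infty => rw [smul_infty_eq_self_iff]; exact h1
    | coe k =>
      rw [smul_some_eq_ite, h1, h2, h3, zero_mul, zero_add, add_zero, if_neg hd,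
        mul_div_cancel_left₀ _ hd]

end

/-- counting the ordered triples of distinct elements -/
theorem card_of_sharp {n : ℕ} (hn : 3 ≤ n) (S : Finset (Equiv.Perm (Fin n)))
    (hS : ∀ a b c a' b' c' : Fin n, a ≠ b → a ≠ c → b ≠ c → a' ≠ b' → a' ≠ c' →
      b' ≠ c' → (S.filter fun σ => σ a = a' ∧ σ b = b' ∧ σ c = c').card = 1) :
    S.card = n * (n - 1) * (n - 2) := by
  classical
  let x : Fin n := ⟨0, by omega⟩
  let y : Fin n := ⟨1, by omega⟩
  let z : Fin n := ⟨2, by omega⟩
  have hxy : x ≠ y := by simp [x, y]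
  have hxz : x ≠ z := by simp [x, z]
  have hyz : y ≠ z := by simp [y, z]
  have h1 : S.card = ∑ a : Fin n, ∑ b : Fin n, ∑ c : Fin n,
      (S.filter fun σ => σ x = a ∧ σ y = b ∧ σ z = c).card := by
    rw [card_eq_sum_card_fiberwise (f := fun σ => (σ x, σ y, σ z)) (t := univ)
      (fun σ _ => mem_coe.2 (mem_univ _)), Fintype.sum_prod_type]
    apply sum_congr rfl
    intro a _
    rw [Fintype.sum_prod_type]
    simp only [Prod.mk.injEq]
  have h2 : ∀ a : Fin n, ∑ b : Fin n, ∑ c : Fin n,
      (S.filter fun σ => σ x = a ∧ σ y = b ∧ σ z = c).card = (n - 1) * (n - 2) := by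
    intro a
    have h3 : ∑ b : Fin n, ∑ c : Fin n,
      (S.filter fun σ => σ x = a ∧ σ y = b ∧ σ z = c).card = ∑ b ∈ univ.erase a, ∑ c : Fin n,
      (S.filter fun σ => σ x = a ∧ σ y = b ∧ σ z = c).card := by
      symm
      apply sum_subset (erase_subset _ _)
      intro b _ hb
      apply sum_eq_zero
      intro c _
      rw [card_eq_zero, filter_eq_empty_iff]
      rintro σ - ⟨h4, h5, -⟩
      apply hb
      rw [mem_erase]
      refine ⟨?_, mem_univ _⟩
      rintro rfl
      exact hxy (σ.injective (h4.trans h5.symm))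
    rw [h3]
    have h4 : ∀ b ∈ univ.erase a, ∑ c : Fin n,
        (S.filter fun σ => σ x = a ∧ σ y = b ∧ σ z = c).card = n - 2 := by
      intro b hb
      have hba := (mem_erase.1 hb).1
      have h5 : ∑ c : Fin n, (S.filter fun σ => σ x = a ∧ σ y = b ∧ σ z = c).card =
          ∑ c ∈ (univ.erase a).erase b,
            (S.filter fun σ => σ x = a ∧ σ y = b ∧ σ z = c).card := by
        symm
        apply sum_subset ((erase_subset _ _).trans (erase_subset _ _))
        intro c _ hc
        rw [card_eq_zero, filter_eq_empty_iff]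
        rintro σ - ⟨h6, h7, h8⟩
        apply hc
        rw [mem_erase, mem_erase]
        refine ⟨?_, ?_, mem_univ _⟩
        · rintro rfl
          exact hyz (σ.injective (h7.trans h8.symm))
        · rintro rfl
          exact hxz (σ.injective (h6.trans h8.symm))
      rw [h5]
      have h6 : ∀ c ∈ (univ.erase a).erase b,
          (S.filter fun σ => σ x = a ∧ σ y = b ∧ σ z = c).card = 1 := by
        intro c hc
        rw [mem_erase, mem_erase] at hc
        exact hS x y z a b c hxy hxz hyz hba.symm hc.2.1.symm hc.1.symm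
      rw [sum_congr rfl h6, sum_const, smul_eq_mul, mul_one,
        card_erase_of_mem hb, card_erase_of_mem (mem_univ _), card_univ, Fintype.card_fin]
      omega
    rw [sum_congr rfl h4, sum_const, smul_eq_mul, card_erase_of_mem (mem_univ _), card_univ,
      Fintype.card_fin]
  rw [h1, sum_congr rfl fun a _ => h2 a, sum_const, smul_eq_mul, card_univ, Fintype.card_fin,
    mul_assoc]

end MOB

open Finset OnePoint Matrix MOB in
theorem holds_MOB : S_MOB := by
  intro F _ _
  classical
  have hcard : Fintype.card (OnePoint F) = Fintype.card F + 1 :=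
    Fintype.card_option
  let e : OnePoint F ≃ Fin (Fintype.card F + 1) := Fintype.equivFinOfCardEq hcard
  let S : Finset (Equiv.Perm (Fin (Fintype.card F + 1))) :=
    univ.filter fun σ => ∃ g : GL (Fin 2) F, ∀ a, σ a = e (g • e.symm a)
  have hS : ∀ a b c a' b' c' : Fin (Fintype.card F + 1), a ≠ b → a ≠ c → b ≠ c → a' ≠ b' →
      a' ≠ c' → b' ≠ c' → (S.filter fun σ => σ a = a' ∧ σ b = b' ∧ σ c = c').card = 1 := by
    intro a b c a' b' c' hab hac hbc hab' hac' hbc'
    have hi : ∀ u v : Fin (Fintype.card F + 1), u ≠ v → e.symm u ≠ e.symm v :=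
      fun u v h h' => h (e.symm.injective h')
    obtain ⟨h, ha, hb, hc⟩ := norm3 _ _ _ (hi _ _ hab) (hi _ _ hac) (hi _ _ hbc)
    obtain ⟨h', ha', hb', hc'⟩ := norm3 _ _ _ (hi _ _ hab') (hi _ _ hac') (hi _ _ hbc')
    rw [card_eq_one]
    refine ⟨e.permCongr (MulAction.toPerm (h'⁻¹ * h)), ?_⟩
    rw [eq_singleton_iff_unique_mem]
    have hval : ∀ u, e.permCongr (MulAction.toPerm (h'⁻¹ * h)) u =
        e ((h'⁻¹ * h) • e.symm u) := fun u => rfl
    refine ⟨?_, ?_⟩
    · rw [mem_filter]
      refine ⟨mem_filter.2 ⟨mem_univ _, h'⁻¹ * h, hval⟩, ?_, ?_, ?_⟩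
      · rw [hval, mul_smul, ha, ← ha', inv_smul_smul, Equiv.apply_symm_apply]
      · rw [hval, mul_smul, hb, ← hb', inv_smul_smul, Equiv.apply_symm_apply]
      · rw [hval, mul_smul, hc, ← hc', inv_smul_smul, Equiv.apply_symm_apply]
    · intro σ hσ
      rw [mem_filter, mem_filter] at hσ
      obtain ⟨⟨-, g, hg⟩, h1, h2, h3⟩ := hσ
      rw [hg, ← Equiv.eq_symm_apply] at h1 h2 h3
      have ht := triv (h' * (g * h⁻¹))
        (by rw [mul_smul, mul_smul, ← ha, inv_smul_smul, h1, ha', ha])
        (by rw [mul_smul, mul_smul, ← hb, inv_smul_smul, h2, hb', hb])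
        (by rw [mul_smul, mul_smul, ← hc, inv_smul_smul, h3, hc', hc])
      ext1 u
      rw [hval, hg]
      congr 1
      have := ht (h • e.symm u)
      rw [mul_smul, mul_smul, inv_smul_smul] at this
      rw [mul_smul, ← this, inv_smul_smul]
  refine ⟨S, ?_, hS⟩
  have hq : 2 ≤ Fintype.card F := Fintype.one_lt_card
  rw [card_of_sharp (by omega) S hS]
  have h1 : Fintype.card F + 1 - 1 = Fintype.card F := by omega
  have h2 : Fintype.card F + 1 - 2 = Fintype.card F - 1 := by omega
  rw [h1, h2]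

end Pool.Agent.N724.TW
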