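import Pool.Agent.N724.TW.Stm

set_option autoImplicit false

/-!
# TW/PROB: a level is hit with probability at least `1 / 64`
-/

namespace Pool.Agent.N724.TW

namespace PROB

open Finset

/-- the triple event for sets of positions -/
theorem tri {n : ℕ} (S : Finset (Equiv.Perm (Fin n))) (hS : Uni3 S) (x y z : Fin n)
    (hxy : x ≠ y) (hxz : x ≠ z) (hyz : y ≠ z) (A B C : Finset (Fin n)) (hAB : Disjoint A B)
    (hAC : A ⊆ C) (hBC : B ⊆ C) :
    (S.filter fun σ => σ x ∈ A ∧ σ y ∈ B ∧ σ z ∈ C).card * (n * (n - 1) * (n - 2)) =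
      A.card * B.card * (C.card - 2) * S.card := by
  classical
  have h1 : (S.filter fun σ => σ x ∈ A ∧ σ y ∈ B ∧ σ z ∈ C).card =
      ∑ a ∈ A, ∑ b ∈ B, ∑ c ∈ C, (S.filter fun σ => σ x = a ∧ σ y = b ∧ σ z = c).card := by
    rw [card_eq_sum_card_fiberwise (f := fun σ => (σ x, σ y, σ z)) (t := A ×ˢ B ×ˢ C)]
    · rw [sum_product]
      apply sum_congr rfl
      intro a ha
      rw [sum_product]
      apply sum_congr rfl
      intro b hb
      apply sum_congr rfl
      intro c hc
      congr 1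
      ext σ
      simp only [mem_filter, Prod.mk.injEq]
      constructor
      · rintro ⟨⟨h, -⟩, h2⟩
        exact ⟨h, h2⟩
      · rintro ⟨h, h2, h3, h4⟩
        exact ⟨⟨h, by rw [h2]; exact ha, by rw [h3]; exact hb, by rw [h4]; exact hc⟩, h2, h3, h4⟩
    · intro σ hσ
      simp only [coe_filter, Set.mem_ofPred_eq] at hσ
      simp only [mem_coe, mem_product]
      exact hσ.2
  have h4 : A.card * B.card * (C.card - 2) * S.card =
      ∑ _a ∈ A, ∑ _b ∈ B, (C.card - 2) * S.card := by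
    simp only [sum_const, smul_eq_mul, mul_assoc]
  rw [h1, h4, sum_mul]
  apply sum_congr rfl
  intro a ha
  rw [sum_mul]
  apply sum_congr rfl
  intro b hb
  have hab : a ≠ b := fun h => disjoint_left.1 hAB ha (h ▸ hb)
  have h2 : ∑ c ∈ C, (S.filter fun σ => σ x = a ∧ σ y = b ∧ σ z = c).card =
      ∑ c ∈ (C.erase a).erase b, (S.filter fun σ => σ x = a ∧ σ y = b ∧ σ z = c).card := by
    symm
    apply sum_subset ((erase_subset _ _).trans (erase_subset _ _))
    intro c hc hc'
    rw [card_eq_zero, filter_eq_empty_iff]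
    rintro σ - ⟨h3, h4, h5⟩
    apply hc'
    rw [mem_erase, mem_erase]
    refine ⟨?_, ?_, hc⟩
    · rintro rfl
      exact hyz (σ.injective (h4.trans h5.symm))
    · rintro rfl
      exact hxz (σ.injective (h3.trans h5.symm))
  rw [h2, sum_mul]
  have h3 : ∀ c ∈ (C.erase a).erase b,
      (S.filter fun σ => σ x = a ∧ σ y = b ∧ σ z = c).card * (n * (n - 1) * (n - 2)) =
        S.card := by
    intro c hc
    rw [mem_erase, mem_erase] at hc
    exact hS x y z a b c hxy hxz hyz hab hc.2.1.symm hc.1.symm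
  rw [sum_congr rfl h3, sum_const, smul_eq_mul]
  congr 1
  rw [card_erase_of_mem (mem_erase.2 ⟨hab.symm, hBC hb⟩), card_erase_of_mem (hAC ha)]
  omega

/-- the positions in `[l, m)` -/
def pos (n l m : ℕ) : Finset (Fin n) := univ.filter fun a => l ≤ (a : ℕ) ∧ (a : ℕ) < m

theorem card_pos (n l m : ℕ) (h : m ≤ n) : (pos n l m).card = m - l := by
  have : (pos n l m).map Fin.valEmbedding = Ico l m := by
    ext a
    simp only [pos, mem_map, mem_filter, mem_univ, true_and, Fin.valEmbedding_apply, mem_Ico]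
    constructor
    · rintro ⟨b, hb, rfl⟩
      exact hb
    · intro ha
      exact ⟨⟨a, by omega⟩, ha, rfl⟩
  rw [← card_map Fin.valEmbedding, this, Nat.card_Ico]

theorem mem_pos {n l m : ℕ} {a : Fin n} : a ∈ pos n l m ↔ l ≤ (a : ℕ) ∧ (a : ℕ) < m := by
  simp [pos]

open Classical in
/-- the pointwise inequality for one node -/
theorem pw {n : ℕ} (l m r : ℕ) (hmr : m ≤ r) (σ : Equiv.Perm (Fin n)) (x : Fin n)
    (Q : Finset (Fin n)) :
    (∑ y ∈ Q, ((if σ x ∈ pos n m r ∧ σ y ∈ pos n l m then 1 else 0 : ℝ) -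
      ∑ z ∈ Q.erase y, (if σ x ∈ pos n m r ∧ σ y ∈ pos n l m ∧ σ z ∈ pos n l r then 1 else 0 : ℝ)))
      ≤ if Hit l m r σ x Q then 1 else 0 := by
  by_cases hx : σ x ∈ pos n m r
  · simp only [hx, true_and]
    set A := Q.filter fun y => σ y ∈ pos n l m ∧ ∀ z ∈ Q.erase y, σ z ∉ pos n l r with hA
    have h1 : ∀ y ∈ Q, ((if σ y ∈ pos n l m then 1 else 0 : ℝ) -
        ∑ z ∈ Q.erase y, (if σ y ∈ pos n l m ∧ σ z ∈ pos n l r then 1 else 0 : ℝ)) ≤
        if σ y ∈ pos n l m ∧ ∀ z ∈ Q.erase y, σ z ∉ pos n l r then 1 else 0 := by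
      intro y hy
      have hnn : ∀ z ∈ Q.erase y, (0 : ℝ) ≤
          (if σ y ∈ pos n l m ∧ σ z ∈ pos n l r then 1 else 0 : ℝ) := by
        intro z hz
        split_ifs <;> norm_num
      by_cases hy1 : σ y ∈ pos n l m
      · by_cases hz : ∀ z ∈ Q.erase y, σ z ∉ pos n l r
        · rw [if_pos hy1, if_pos ⟨hy1, hz⟩]
          have := sum_nonneg hnn
          linarith
        · push Not at hz
          obtain ⟨z, hz1, hz2⟩ := hz
          have h2 := single_le_sum hnn hz1
          rw [if_pos ⟨hy1, hz2⟩] at h2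
          rw [if_pos hy1]
          split_ifs <;> linarith
      · have := sum_nonneg hnn
        rw [if_neg hy1]
        split_ifs <;> linarith
    refine (sum_le_sum h1).trans ?_
    rw [← sum_filter, sum_const, nsmul_eq_mul, mul_one]
    by_cases hE : A = ∅
    · rw [← hA, hE, card_empty]
      split_ifs <;> norm_num
    · obtain ⟨y, hy⟩ := nonempty_iff_ne_empty.2 hE
      have hAy : A ⊆ {y} := by
        intro y' hy'
        rw [mem_singleton]
        by_contra hne
        rw [hA, mem_filter] at hy hy'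
        apply hy.2.2 y' (mem_erase.2 ⟨hne, hy'.1⟩)
        have := mem_pos.1 hy'.2.1
        exact mem_pos.2 ⟨this.1, by omega⟩
      have hc : A.card ≤ 1 := by
        have := card_le_card hAy
        rwa [card_singleton] at this
      have hH : Hit l m r σ x Q := by
        rw [hA, mem_filter] at hy
        refine ⟨mem_pos.1 hx, y, hy.1, mem_pos.1 hy.2.1, ?_⟩
        intro z hz hz1 hz2
        by_contra hne
        exact hy.2.2 z (mem_erase.2 ⟨hne, hz⟩) (mem_pos.2 ⟨hz1, hz2⟩)
      rw [if_pos hH]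
      exact_mod_cast hc
  · simp only [hx, false_and, if_false, sum_const_zero, sub_zero]
    split_ifs <;> norm_num

open Classical in
theorem pwL {n : ℕ} (k : ℕ) (hk : 1 ≤ k) (σ : Equiv.Perm (Fin n)) (x : Fin n)
    (Q : Finset (Fin n)) :
    (∑ i ∈ range (n / (2 * k)),
      (if Hit (i * (2 * k)) (i * (2 * k) + k) ((i + 1) * (2 * k)) σ x Q then 1 else 0 : ℝ)) ≤
      if LHit k σ x Q then 1 else 0 := by
  rw [← sum_filter, sum_const, nsmul_eq_mul, mul_one]
  set A := (range (n / (2 * k))).filter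
    fun i => Hit (i * (2 * k)) (i * (2 * k) + k) ((i + 1) * (2 * k)) σ x Q with hA
  by_cases hE : A = ∅
  · rw [hE, card_empty]
    split_ifs <;> norm_num
  · obtain ⟨i, hi⟩ := nonempty_iff_ne_empty.2 hE
    have hc : A.card ≤ 1 := by
      rw [card_le_one]
      have h : ∀ a ∈ A, a = (σ x : ℕ) / (2 * k) := by
        intro a ha
        rw [hA, mem_filter] at ha
        obtain ⟨-, ⟨h1, h2⟩, -⟩ := ha
        symm
        rw [Nat.div_eq_iff (by omega)]
        constructor
        · nlinarith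
        · have : (a + 1) * (2 * k) = a * (2 * k) + 2 * k := by ring
          omega
      intro a ha b hb
      rw [h a ha, h b hb]
    have hH : LHit k σ x Q := by
      rw [hA, mem_filter, mem_range] at hi
      refine ⟨i, ?_, hi.2⟩
      have := Nat.div_mul_le_self n (2 * k)
      calc (i + 1) * (2 * k) ≤ n / (2 * k) * (2 * k) := Nat.mul_le_mul_right _ (by omega)
        _ ≤ n := this
    rw [if_pos hH]
    exact_mod_cast hc

end PROB

open Finset PROB in
open Classical in
theorem holds_PROB : S_PROB := by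
  intro n k S hS hk hkn x Q hxQ hQ
  set N := n / (2 * k) with hN
  set s := n / (4 * k) with hs
  have hs1 : 1 ≤ s := by
    rw [hs]
    exact (Nat.one_le_div_iff (by omega)).2 hkn
  have hN2 : 2 ≤ N := by
    rw [hN, Nat.le_div_iff_mul_le (by omega)]
    omega
  have hNn : N * (2 * k) ≤ n := Nat.div_mul_le_self _ _
  have hNn2 : n < 2 * k * (N + 1) := Nat.lt_mul_div_succ n (by omega)
  have hsn : s * (4 * k) ≤ n := Nat.div_mul_le_self _ _
  have hsn2 : n < 4 * k * (s + 1) := Nat.lt_mul_div_succ n (by omega)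
  have hn4 : 4 ≤ n := by omega
  have hcards : ∀ i ∈ range N, (pos n (i * (2 * k) + k) ((i + 1) * (2 * k))).card = k ∧
      (pos n (i * (2 * k)) (i * (2 * k) + k)).card = k ∧
      (pos n (i * (2 * k)) ((i + 1) * (2 * k))).card = 2 * k := by
    intro i hi
    rw [mem_range] at hi
    have h1 : (i + 1) * (2 * k) ≤ n := (Nat.mul_le_mul_right _ (by omega)).trans hNn
    have h2 : (i + 1) * (2 * k) = i * (2 * k) + 2 * k := by ring
    refine ⟨?_, ?_, ?_⟩
    · rw [card_pos _ _ _ h1]; omega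
    · rw [card_pos _ _ _ (by omega)]; omega
    · rw [card_pos _ _ _ h1]; omega
  have hdisj : ∀ i : ℕ, Disjoint (pos n (i * (2 * k) + k) ((i + 1) * (2 * k)))
      (pos n (i * (2 * k)) (i * (2 * k) + k)) := by
    intro i
    rw [disjoint_left]
    intro a ha hb
    have h1 := (mem_pos.1 ha).1
    have h2 := (mem_pos.1 hb).2
    omega
  have hpair : ∀ i ∈ range N, ∀ y ∈ Q,
      (S.filter fun σ => σ x ∈ pos n (i * (2 * k) + k) ((i + 1) * (2 * k)) ∧
        σ y ∈ pos n (i * (2 * k)) (i * (2 * k) + k)).card * (n * (n - 1) * (n - 2)) =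
      k * k * (n - 2) * S.card := by
    intro i hi y hy
    have hxy : x ≠ y := fun h => hxQ (h ▸ hy)
    obtain ⟨z, hz⟩ : ∃ z : Fin n, z ∉ ({x, y} : Finset (Fin n)) := by
      by_contra hcon
      push Not at hcon
      have h1 : (univ : Finset (Fin n)).card ≤ ({x, y} : Finset (Fin n)).card :=
        card_le_card fun z _ => hcon z
      have h2 : ({x, y} : Finset (Fin n)).card ≤ 2 := card_le_two
      rw [card_univ, Fintype.card_fin] at h1
      omega
    rw [mem_insert, mem_singleton, not_or] at hz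
    have := tri S hS x y z hxy (Ne.symm hz.1) (Ne.symm hz.2) _ _ univ (hdisj i)
      (subset_univ _) (subset_univ _)
    rw [(hcards i hi).1, (hcards i hi).2.1, card_univ, Fintype.card_fin] at this
    rw [← this]
    congr 2
    ext σ
    simp
  have htri : ∀ i ∈ range N, ∀ y ∈ Q, ∀ z ∈ Q.erase y,
      (S.filter fun σ => σ x ∈ pos n (i * (2 * k) + k) ((i + 1) * (2 * k)) ∧
        σ y ∈ pos n (i * (2 * k)) (i * (2 * k) + k) ∧
        σ z ∈ pos n (i * (2 * k)) ((i + 1) * (2 * k))).card * (n * (n - 1) * (n - 2)) =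
      k * k * (2 * k - 2) * S.card := by
    intro i hi y hy z hz
    rw [mem_erase] at hz
    have hxy : x ≠ y := fun h => hxQ (h ▸ hy)
    have hxz : x ≠ z := fun h => hxQ (h ▸ hz.2)
    have := tri S hS x y z hxy hxz (Ne.symm hz.1) _ _
      (pos n (i * (2 * k)) ((i + 1) * (2 * k))) (hdisj i) (by
        intro a ha
        have h1 := mem_pos.1 ha
        exact mem_pos.2 ⟨by omega, h1.2⟩) (by
        intro a ha
        have h1 := mem_pos.1 ha
        have h2 : (i + 1) * (2 * k) = i * (2 * k) + 2 * k := by ring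
        exact mem_pos.2 ⟨h1.1, by omega⟩)
    rw [(hcards i hi).1, (hcards i hi).2.1, (hcards i hi).2.2] at this
    exact this
  -- the double counting
  have hmain : (∑ i ∈ range N, ∑ y ∈ Q,
      (((S.filter fun σ => σ x ∈ pos n (i * (2 * k) + k) ((i + 1) * (2 * k)) ∧
        σ y ∈ pos n (i * (2 * k)) (i * (2 * k) + k)).card : ℝ) - ∑ z ∈ Q.erase y,
        ((S.filter fun σ => σ x ∈ pos n (i * (2 * k) + k) ((i + 1) * (2 * k)) ∧
        σ y ∈ pos n (i * (2 * k)) (i * (2 * k) + k) ∧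
        σ z ∈ pos n (i * (2 * k)) ((i + 1) * (2 * k))).card : ℝ))) ≤
      ((S.filter fun σ => LHit k σ x Q).card : ℝ) := by
    have h1 : ∀ σ ∈ S, (∑ i ∈ range N, ∑ y ∈ Q,
        ((if σ x ∈ pos n (i * (2 * k) + k) ((i + 1) * (2 * k)) ∧
          σ y ∈ pos n (i * (2 * k)) (i * (2 * k) + k) then 1 else 0 : ℝ) - ∑ z ∈ Q.erase y,
          (if σ x ∈ pos n (i * (2 * k) + k) ((i + 1) * (2 * k)) ∧
          σ y ∈ pos n (i * (2 * k)) (i * (2 * k) + k) ∧
          σ z ∈ pos n (i * (2 * k)) ((i + 1) * (2 * k)) then 1 else 0 : ℝ))) ≤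
        if LHit k σ x Q then 1 else 0 := by
      intro σ _
      refine le_trans (sum_le_sum fun i _ => ?_) (pwL k hk σ x Q)
      apply pw
      have h2 : (i + 1) * (2 * k) = i * (2 * k) + 2 * k := by ring
      omega
    have h2 := sum_le_sum h1
    rw [← sum_filter, sum_const, nsmul_eq_mul, mul_one, sum_comm] at h2
    refine le_trans (le_of_eq ?_) h2
    apply sum_congr rfl
    intro i _
    rw [sum_comm]
    apply sum_congr rfl
    intro y _
    rw [sum_sub_distrib, sum_comm (s := S)]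
    congr 1
    · rw [← sum_filter, sum_const, nsmul_eq_mul, mul_one]
    · apply sum_congr rfl
      intro z _
      rw [← sum_filter, sum_const, nsmul_eq_mul, mul_one]
  have hnR : (4 : ℝ) ≤ n := by exact_mod_cast hn4
  have hkR : (1 : ℝ) ≤ k := by exact_mod_cast hk
  have hsR : (1 : ℝ) ≤ s := by exact_mod_cast hs1
  have hNR : (2 : ℝ) ≤ N := by exact_mod_cast hN2
  set D : ℝ := (n : ℝ) * (n - 1) * (n - 2) with hD
  have hD0 : 0 < D := by
    rw [hD]
    apply mul_pos (mul_pos _ _) _ <;> linarith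
  set M : ℝ := (S.card : ℝ) with hM
  have hM0 : 0 ≤ M := by rw [hM]; positivity
  have hDc : ((n * (n - 1) * (n - 2) : ℕ) : ℝ) = D := by
    rw [hD]
    push_cast [Nat.cast_sub (show 1 ≤ n by omega), Nat.cast_sub (show 2 ≤ n by omega)]
    ring
  set P : ℝ := k * k * (n - 2) * M / D with hP
  set T : ℝ := k * k * (2 * k - 2) * M / D with hT
  have hpair' : ∀ i ∈ range N, ∀ y ∈ Q,
      ((S.filter fun σ => σ x ∈ pos n (i * (2 * k) + k) ((i + 1) * (2 * k)) ∧
        σ y ∈ pos n (i * (2 * k)) (i * (2 * k) + k)).card : ℝ) = P := by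
    intro i hi y hy
    rw [hP, eq_div_iff hD0.ne', ← hDc, hM]
    have := hpair i hi y hy
    have h2 : ((n - 2 : ℕ) : ℝ) = n - 2 := by
      push_cast [Nat.cast_sub (show 2 ≤ n by omega)]; ring
    rw [← h2]
    exact_mod_cast this
  have htri' : ∀ i ∈ range N, ∀ y ∈ Q, ∀ z ∈ Q.erase y,
      ((S.filter fun σ => σ x ∈ pos n (i * (2 * k) + k) ((i + 1) * (2 * k)) ∧
        σ y ∈ pos n (i * (2 * k)) (i * (2 * k) + k) ∧
        σ z ∈ pos n (i * (2 * k)) ((i + 1) * (2 * k))).card : ℝ) = T := by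
    intro i hi y hy z hz
    rw [hT, eq_div_iff hD0.ne', ← hDc, hM]
    have := htri i hi y hy z hz
    have h2 : ((2 * k - 2 : ℕ) : ℝ) = 2 * k - 2 := by
      push_cast [Nat.cast_sub (show 2 ≤ 2 * k by omega)]; ring
    rw [← h2]
    exact_mod_cast this
  have hsum : (∑ i ∈ range N, ∑ y ∈ Q,
      (((S.filter fun σ => σ x ∈ pos n (i * (2 * k) + k) ((i + 1) * (2 * k)) ∧
        σ y ∈ pos n (i * (2 * k)) (i * (2 * k) + k)).card : ℝ) - ∑ z ∈ Q.erase y,
        ((S.filter fun σ => σ x ∈ pos n (i * (2 * k) + k) ((i + 1) * (2 * k)) ∧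
        σ y ∈ pos n (i * (2 * k)) (i * (2 * k) + k) ∧
        σ z ∈ pos n (i * (2 * k)) ((i + 1) * (2 * k))).card : ℝ))) =
      N * (s * (P - (s - 1) * T)) := by
    have h1 : ∀ i ∈ range N, (∑ y ∈ Q,
      (((S.filter fun σ => σ x ∈ pos n (i * (2 * k) + k) ((i + 1) * (2 * k)) ∧
        σ y ∈ pos n (i * (2 * k)) (i * (2 * k) + k)).card : ℝ) - ∑ z ∈ Q.erase y,
        ((S.filter fun σ => σ x ∈ pos n (i * (2 * k) + k) ((i + 1) * (2 * k)) ∧
        σ y ∈ pos n (i * (2 * k)) (i * (2 * k) + k) ∧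
        σ z ∈ pos n (i * (2 * k)) ((i + 1) * (2 * k))).card : ℝ))) =
      s * (P - (s - 1) * T) := by
      intro i hi
      have h2 : ∀ y ∈ Q, (((S.filter fun σ => σ x ∈ pos n (i * (2 * k) + k) ((i + 1) * (2 * k)) ∧
        σ y ∈ pos n (i * (2 * k)) (i * (2 * k) + k)).card : ℝ) - ∑ z ∈ Q.erase y,
        ((S.filter fun σ => σ x ∈ pos n (i * (2 * k) + k) ((i + 1) * (2 * k)) ∧
        σ y ∈ pos n (i * (2 * k)) (i * (2 * k) + k) ∧
        σ z ∈ pos n (i * (2 * k)) ((i + 1) * (2 * k))).card : ℝ)) = P - (s - 1) * T := by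
        intro y hy
        rw [hpair' i hi y hy, sum_congr rfl (htri' i hi y hy), sum_const, nsmul_eq_mul,
          card_erase_of_mem hy, hQ, Nat.cast_sub hs1, Nat.cast_one]
      rw [sum_congr rfl h2, sum_const, nsmul_eq_mul, hQ]
    rw [sum_congr rfl h1, sum_const, nsmul_eq_mul, card_range]
  rw [hsum] at hmain
  have hgoal : M ≤ 64 * (N * (s * (P - (s - 1) * T))) := by
    have e1 : 64 * (N * (s * (P - (s - 1) * T))) =
        (64 * N * s * (k * k) * M * ((n - 2) - (s - 1) * (2 * k - 2))) / D := by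
      rw [hP, hT]
      field_simp
    rw [e1, le_div_iff₀ hD0]
    have hsnR : (s : ℝ) * (4 * k) ≤ n := by exact_mod_cast hsn
    have hsn2R : (n : ℝ) ≤ 8 * k * s := by
      have h1 : (n : ℝ) < 4 * k * (s + 1) := by exact_mod_cast hsn2
      nlinarith
    have hNn2R : (n : ℝ) ≤ 4 * k * N := by
      have h1 : (n : ℝ) < 2 * k * (N + 1) := by exact_mod_cast hNn2
      nlinarith
    have e2 : ((n : ℝ) - 2) / 2 ≤ (n - 2) - (s - 1) * (2 * k - 2) := by
      nlinarith
    have e3 : (n : ℝ) * n ≤ (8 * k * s) * (4 * k * N) :=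
      mul_le_mul hsn2R hNn2R (by linarith) (by positivity)
    calc M * D = M * (n - 2) * (n * (n - 1)) := by rw [hD]; ring
      _ ≤ M * (n - 2) * ((8 * k * s) * (4 * k * N)) := by
          apply mul_le_mul_of_nonneg_left _ (mul_nonneg hM0 (by linarith))
          nlinarith
      _ = 64 * N * s * (k * k) * M * ((n - 2) / 2) := by ring
      _ ≤ _ := mul_le_mul_of_nonneg_left e2 (by positivity)
  have hfin : M ≤ 64 * ((S.filter fun σ => LHit k σ x Q).card : ℝ) := by linarith
  rw [hM] at hfin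
  exact_mod_cast hfin

end Pool.Agent.N724.TW
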