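import Pool.Agent.N724.TW.Stm

set_option autoImplicit false

/-!
# Project TW, part VAL: the interleave bound for the dyadic scheme (helper407)
-/

namespace Pool.Agent.N724.TW

open Pool.Agent.H581R2.Splay Pool.Agent.TH49.Spl Pool.Agent.Y395.SP

namespace VALaux

/-- the dyadic scheme on `[l, l + 2 ^ D)` -/
def FS : ℕ → ℕ → AS
  | 0, _ => AS.leaf
  | D + 1, l => AS.node (l + 2 ^ D) false false (FS D l) (FS D (l + 2 ^ D))

theorem cred_FS (D l : ℕ) : cred (FS D l) = 0 := by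
  induction D generalizing l with
  | zero => rfl
  | succ D ih => simp [FS, cred, ih]

theorem two_pow_eq (D l : ℕ) : l + 2 ^ (D + 1) = l + 2 ^ D + 2 ^ D := by
  rw [pow_succ]
  ring

theorem ok_FS (D l : ℕ) : ok (FS D l) l (l + 2 ^ D) := by
  induction D generalizing l with
  | zero => trivial
  | succ D ih =>
    refine ⟨Nat.le_add_right _ _, ?_, ih l, ?_⟩
    · rw [two_pow_eq]
      exact Nat.le_add_right _ _
    · rw [two_pow_eq]
      exact ih (l + 2 ^ D)

theorem inv_FS (T : Tr) (D l r : ℕ) : inv T (FS D l) l r := by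
  induction D generalizing l r with
  | zero => trivial
  | succ D ih => exact ⟨by simp, ih _ _, ih _ _⟩

theorem val_FS (Y : List ℕ) (D l : ℕ) : val (FS D l) l (l + 2 ^ D) Y =
    ∑ e ∈ Finset.range D, ∑ i ∈ Finset.range (2 ^ (D - 1 - e)),
      cnt (l + i * (2 * 2 ^ e)) (l + i * (2 * 2 ^ e) + 2 ^ e) (l + (i + 1) * (2 * 2 ^ e)) false Y := by
  induction D generalizing l with
  | zero => simp [FS, val]
  | succ D ih =>
    rw [Finset.sum_range_succ]
    have h1 : val (FS (D + 1) l) l (l + 2 ^ (D + 1)) Y =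
        cnt l (l + 2 ^ D) (l + 2 ^ (D + 1)) false Y + val (FS D l) l (l + 2 ^ D) Y +
          val (FS D (l + 2 ^ D)) (l + 2 ^ D) (l + 2 ^ (D + 1)) Y := rfl
    have h2 : ∑ i ∈ Finset.range (2 ^ (D + 1 - 1 - D)),
        cnt (l + i * (2 * 2 ^ D)) (l + i * (2 * 2 ^ D) + 2 ^ D) (l + (i + 1) * (2 * 2 ^ D)) false Y =
        cnt l (l + 2 ^ D) (l + 2 ^ (D + 1)) false Y := by
      have e1 : D + 1 - 1 - D = 0 := by omega
      rw [e1, pow_zero, Finset.sum_range_one]
      congr 1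
      · ring
      · ring
      · rw [pow_succ]
        ring
    have h3 : ∑ e ∈ Finset.range D, ∑ i ∈ Finset.range (2 ^ (D + 1 - 1 - e)),
        cnt (l + i * (2 * 2 ^ e)) (l + i * (2 * 2 ^ e) + 2 ^ e) (l + (i + 1) * (2 * 2 ^ e)) false Y =
        (∑ e ∈ Finset.range D, ∑ i ∈ Finset.range (2 ^ (D - 1 - e)),
          cnt (l + i * (2 * 2 ^ e)) (l + i * (2 * 2 ^ e) + 2 ^ e) (l + (i + 1) * (2 * 2 ^ e))
            false Y) +
        ∑ e ∈ Finset.range D, ∑ i ∈ Finset.range (2 ^ (D - 1 - e)),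
          cnt (l + 2 ^ D + i * (2 * 2 ^ e)) (l + 2 ^ D + i * (2 * 2 ^ e) + 2 ^ e)
            (l + 2 ^ D + (i + 1) * (2 * 2 ^ e)) false Y := by
      rw [← Finset.sum_add_distrib]
      refine Finset.sum_congr rfl fun e he => ?_
      have he' := Finset.mem_range.1 he
      have e1 : D + 1 - 1 - e = (D - 1 - e) + 1 := by omega
      have e2 : 2 ^ (D - 1 - e) * (2 * 2 ^ e) = 2 ^ D := by
        rw [← pow_succ', ← pow_add]
        congr 1
        omega
      rw [e1, pow_succ, mul_two, Finset.sum_range_add]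
      congr 1
      refine Finset.sum_congr rfl fun i _ => ?_
      have e3 : (2 ^ (D - 1 - e) + i) * (2 * 2 ^ e) = 2 ^ D + i * (2 * 2 ^ e) := by
        rw [add_mul, e2]
      have e4 : (2 ^ (D - 1 - e) + i + 1) * (2 * 2 ^ e) = 2 ^ D + (i + 1) * (2 * 2 ^ e) := by
        rw [add_assoc, add_mul, e2]
      rw [e3, e4, ← add_assoc, ← add_assoc]
    rw [h1, h2, h3, ih l, two_pow_eq, ih (l + 2 ^ D)]
    ring

end VALaux

/-- VAL -/
theorem holds_VAL : S_VAL := by
  intro T Y c D hb hY hE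
  have h := exec_val hE hb hY (VALaux.FS D 0) 0 (0 + 2 ^ D) (VALaux.ok_FS D 0)
    (VALaux.inv_FS T D 0 _)
  rw [VALaux.cred_FS, VALaux.val_FS] at h
  unfold alt
  simpa only [zero_add, add_zero] using h

end Pool.Agent.N724.TW
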